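import Pool.Agent.AT6.Stmts3

/-!
# Squad AT6, row PSV: positivity and the inequality of Cauchy and Schwarz
-/

open scoped BigOperators

noncomputable section

namespace Pool.Agent.PP.T6.H25

open Pool.Agent.Helper51_AWC Pool.Agent.Helper79_WRA Pool.Agent.PP Pool.Agent.PP.KF
open Pool.Agent.PP.K9 Pool.Agent.PP.K9.H97 Pool.Agent.PP.H75 Pool.Agent.PP.T3 Pool.Agent.PP.T2

attribute [local instance] Ideal.Quotient.field

/-- `V` is good for the local block `b`. -/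
theorem good {G : Type} [Group G] {F : Type} [Field F] {ℓ : ℕ} {e : G → F} {V : Subgroup G}
    {γ : G → F} (hL : Ld ℓ e V γ) {v : G} (hv : v ∈ V) {b : G → F} (hb : Lc e V γ v b) :
    Gd (fun t : Cu v => b t) (V.subgroupOf (Cu v)) := by
  classical
  have h1 : ∃ y ∈ Subgroup.centralizer (V : Set G), b y ≠ 0 := by
    by_contra h
    push Not at h
    have h2 : br V b = 0 := by
      funext x
      change (if x ∈ Subgroup.centralizer (V : Set G) then b x else 0) = 0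
      by_cases hx : x ∈ Subgroup.centralizer (V : Set G)
      · rw [if_pos hx]
        exact h x hx
      · rw [if_neg hx]
    apply hL.gam.ne
    rw [← hb.gam, h2]
    funext x
    simp [mulF]
  obtain ⟨y, hy, hy0⟩ := h1
  have hyv : y ∈ Cu v := by
    rw [Subgroup.mem_centralizer_singleton_iff]
    exact (Subgroup.mem_centralizer_iff.1 hy v hv).symm
  refine ⟨⟨y, hyv⟩, ?_, hy0⟩
  rw [Subgroup.mem_centralizer_iff]
  intro w hw
  apply Subtype.ext
  exact Subgroup.mem_centralizer_iff.1 hy w (Subgroup.mem_subgroupOf.1 hw)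

theorem psv (nz : K9.NzStmt) : PsvStmt := by
  intro ℓ hℓ M _ hM G _ _ e V γ hL v hv b hb
  classical
  have := Fintype.ofFinite G
  let S : Finset G := Finset.univ.filter (fun s => s ∈ Cu v ∧ Reg ℓ s)
  let f : (G → ℂ) → G → ℂ := fun χ s => gv M (Cu v) (v * s) b χ
  have hPm : ∀ χ χ' : G → ℂ, Pm M ℓ v b χ χ' =
      (Nat.card (Cu v) : ℂ)⁻¹ * ∑ s ∈ S, f χ s * starRingEnd ℂ (f χ' s) := by
    intro χ χ'
    unfold Pm
    congr 1
    rw [finsum_eq_sum_of_fintype, Finset.sum_filter]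
    refine Finset.sum_congr rfl fun s _ => ?_
    rw [finsum_eq_if]
  let K : ℝ := Nat.card V *
    ((Subgroup.centralizer (V : Set G)).relIndex (Tg V γ ⊓ Cu v) : ℕ) * (Nat.card (Cu v) : ℝ)⁻¹
  have hK : 0 < K := by
    have h1 : 0 < Nat.card V := Nat.card_pos
    have h2 : 0 < Nat.card (Cu v) := Nat.card_pos
    have h3 : (Subgroup.centralizer (V : Set G)).relIndex (Tg V γ ⊓ Cu v) ≠ 0 :=
      Subgroup.index_ne_zero_of_finite
    have h4 : 0 < (Subgroup.centralizer (V : Set G)).relIndex (Tg V γ ⊓ Cu v) :=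
      Nat.pos_of_ne_zero h3
    positivity
  have hMm : ∀ χ χ' : G → ℂ, Mm M ℓ V γ v b χ χ' =
      (K : ℂ) * ∑ s ∈ S, f χ s * starRingEnd ℂ (f χ' s) := by
    intro χ χ'
    unfold Mm
    rw [hPm, ← mul_assoc]
    congr 1
    simp only [K, Complex.ofReal_mul, Complex.ofReal_inv, Complex.ofReal_natCast]
  have hd : ∀ χ : G → ℂ, ∑ s ∈ S, f χ s * starRingEnd ℂ (f χ s) =
      ((∑ s ∈ S, ‖f χ s‖ ^ 2 : ℝ) : ℂ) := by
    intro χ
    rw [Complex.ofReal_sum]
    refine Finset.sum_congr rfl fun s _ => ?_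
    rw [Complex.mul_conj, Complex.normSq_eq_norm_sq]
  have hs0 : ∀ χ : G → ℂ, 0 ≤ ∑ s ∈ S, ‖f χ s‖ ^ 2 := fun χ =>
    Finset.sum_nonneg fun s _ => by positivity
  have hn : ∀ χ : G → ℂ, ‖Mm M ℓ V γ v b χ χ‖ = K * ∑ s ∈ S, ‖f χ s‖ ^ 2 := by
    intro χ
    rw [hMm, hd, ← Complex.ofReal_mul, Complex.norm_real, Real.norm_eq_abs,
      abs_of_nonneg (mul_nonneg hK.le (hs0 χ))]
  refine ⟨fun χ => ?_, fun χ hχ => ?_, fun χ χ' => ?_⟩
  · rw [hn, hMm, hd, ← Complex.ofReal_mul]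
  · intro h0
    have h1 := hn χ
    rw [h0, norm_zero] at h1
    have h2 : ∑ s ∈ S, ‖f χ s‖ ^ 2 = 0 := by
      rcases mul_eq_zero.1 h1.symm with h | h
      · exact absurd h hK.ne'
      · exact h
    have h3 : (1 : G) ∈ S := by
      simp only [S, Finset.mem_filter, Finset.mem_univ, true_and]
      refine ⟨(Cu v).one_mem, ?_⟩
      change (orderOf (1 : G)).Coprime ℓ
      rw [orderOf_one]
      exact Nat.coprime_one_left ℓ
    have h4 := (Finset.sum_eq_zero_iff_of_nonneg (fun s _ => by positivity)).1 h2 1 h3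
    have h5 : f χ 1 = 0 := by
      have := pow_eq_zero_iff (two_ne_zero) |>.1 h4
      exact norm_eq_zero.1 this
    have h6 := nz ℓ M hM G e hL.blk V hL.tp hL.ab v hv (fun t : Cu v => b t) hb.blk.blk hb.und
      (good hL hv hb) v (Subgroup.mem_zpowers v) χ hχ
    apply h6
    have h7 : f χ 1 = gbv (Cu v) (v * 1) (eh M (fun t : Cu v => b t)) χ := rfl
    rw [mul_one] at h7
    rw [← h7, h5]
  · rw [hn, hn, hMm, norm_mul, mul_pow]
    have h1 : ‖∑ s ∈ S, f χ s * starRingEnd ℂ (f χ' s)‖ ≤ ∑ s ∈ S, ‖f χ s‖ * ‖f χ' s‖ := by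
      refine (norm_sum_le _ _).trans (le_of_eq ?_)
      refine Finset.sum_congr rfl fun s _ => ?_
      rw [norm_mul, RCLike.norm_conj]
    have h2 := Finset.sum_mul_sq_le_sq_mul_sq S (fun s => ‖f χ s‖) (fun s => ‖f χ' s‖)
    have h3 : ‖(K : ℂ)‖ = K := by
      rw [Complex.norm_real, Real.norm_eq_abs, abs_of_pos hK]
    rw [h3]
    have h4 : ‖∑ s ∈ S, f χ s * starRingEnd ℂ (f χ' s)‖ ^ 2 ≤
        (∑ s ∈ S, ‖f χ s‖ ^ 2) * ∑ s ∈ S, ‖f χ' s‖ ^ 2 := by
      refine le_trans ?_ h2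
      exact pow_le_pow_left₀ (norm_nonneg _) h1 2
    calc K ^ 2 * ‖∑ s ∈ S, f χ s * starRingEnd ℂ (f χ' s)‖ ^ 2 ≤
        K ^ 2 * ((∑ s ∈ S, ‖f χ s‖ ^ 2) * ∑ s ∈ S, ‖f χ' s‖ ^ 2) :=
          mul_le_mul_of_nonneg_left h4 (by positivity)
      _ = _ := by ring

end Pool.Agent.PP.T6.H25
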